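import Pool.Agent.Helper26.CP.Main

/-!
# MP_418075_nt: every column of the `n × n` array with `gcd(k, n) = 1` contains an almost prime with at most
three prime factors, already among its first `φ(n) + 1` entries, for every `n > 1`
-/

set_option autoImplicit false

namespace Pool.Agent.Results.MP_418075_nt.AlmostPrimeThree

/-- For every `n > 1` and every `k` with `1 ≤ k ≤ n` and `gcd(k, n) = 1` there is `j` with
`1 ≤ j ≤ φ(n)` and `j < n` such that the entry `j n + k` of the column has at most three prime factors,
counted with multiplicity, and each prime factor `p` of `j n + k` satisfies `p^8 > n`. -/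
theorem result :
    ∀ n : ℕ, 1 < n → ∀ k : ℕ, 1 ≤ k → k ≤ n → Nat.Coprime k n →
      ∃ j : ℕ, 1 ≤ j ∧ j ≤ Nat.totient n ∧ j < n ∧
        ArithmeticFunction.cardFactors (j * n + k) ≤ 3 ∧
        ∀ p : ℕ, p.Prime → p ∣ j * n + k → n < p ^ 8 := by
  intro n hn k hk hkn hg
  obtain ⟨j, h1, h2, h3, h4⟩ := Pool.Agent.Helper26.CP.main hn hk hkn hg
  have e : j * n + k = k + n * j := by ring
  exact ⟨j, h1, h2, lt_of_le_of_lt h2 (Nat.totient_lt n hn), by rw [e]; exact h3, by rw [e]; exact h4⟩

end Pool.Agent.Results.MP_418075_nt.AlmostPrimeThree
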