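import Mathlib
import Pool.Agent.Helper68.CO2.Final

/-!
MP_418075_nt, Q1 (parity form).  Both parities of `Ω` among the first members of every reduced
residue class `k` modulo every `n`.
-/

set_option autoImplicit false

namespace Pool.Agent.Results.MP_418075_nt.ParityAllModuli

/-- The first `N` members `k, n + k, …, (N - 1) n + k` of the class of `k` modulo `n` include a
number with an even and a number with an odd number of prime factors, counted with multiplicity.
For `N = n` these are the entries of the `k`th column of the `n` by `n` array. -/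
def Mixed (n k N : ℕ) : Prop :=
  (∃ j < N, Even (ArithmeticFunction.cardFactors (j * n + k))) ∧
    ∃ j < N, Odd (ArithmeticFunction.cardFactors (j * n + k))

/-- Every `J` consecutive natural numbers contain one prime to `n` (the least such `J` is
Jacobsthal's function of `n`). -/
def Jac (n J : ℕ) : Prop := ∀ a : ℕ, ∃ i < J, Nat.Coprime (a + i) n

open Pool.Agent.Helper68.CO2 in
/-- Every reduced class modulo every `n > 1`, with explicit windows. -/
theorem result :
    (∀ n J k : ℕ, 1 < n → Jac n J → 1 ≤ k → k < n → Nat.Coprime k n →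
      Mixed n k (4 * (J + 1) ^ 3 * n + 4 ^ (6 * n.primeFactors.card + 14))) ∧
    (∀ n k : ℕ, 1 < n → 1 ≤ k → k < n → Nat.Coprime k n →
      Mixed n k (4 ^ (6 * n.primeFactors.card + 15) * n)) ∧
    (∀ p e k : ℕ, p.Prime → p ≠ 2 → 1 ≤ k → k < p ^ (e + 1) → ¬ p ∣ k →
      Mixed (p ^ (e + 1)) k (2 * p ^ (e + 1))) ∧
    (∀ e k : ℕ, Odd k → k < 2 ^ (e + 1) → Mixed (2 ^ (e + 1)) k (3 * 2 ^ (e + 1))) ∧
    (∀ n q k : ℕ, 1 < n → q.Prime → q < n.minFac →
      (∀ l : ℕ, l.Prime → l ∣ n → l % 4 = 3 ∧ IsSquare (q : ZMod l)) →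
      1 ≤ k → k < n → Nat.Coprime k n → Mixed n k (2 * n)) := by
  refine ⟨?_, ?_, ?_, ?_, ?_⟩
  · intro n J k hn hJ hk hkn hc
    exact mixed_jac hn hJ hk hkn hc
  · intro n k hn hk hkn hc
    exact mixed_all hn hk hkn hc
  · intro p e k hp h2 hk hkn hpk
    exact mixed_odd_pp hp h2 hk hkn hpk
  · intro e k hk hkn
    exact mixed_two_pp e hk.pos hkn hk
  · intro n q k hn hq hqn h hk hkn hc
    obtain ⟨a, b, h1, h2, h3⟩ := exists_pair hn hq hqn h
    exact mixed_criterion hn h1 h2 h3 hk hkn hc

end Pool.Agent.Results.MP_418075_nt.ParityAllModuli
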