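import Mathlib
import Pool.Agent.Helper87.PA.Main

/-!
# `MP_418075_nt`: for almost all primes `n` every column contains both parities of `Omega`
-/

namespace Pool.Agent.Results.MP_418075_nt.ParityAlmostAllPrimes

/-- `n` is a prime and some column `k, n + k, ..., (n - 1) n + k` with `1 ≤ k < n` does not contain
both an integer with an even and an integer with an odd number of prime factors (with
multiplicity). -/
def Exceptional (n : ℕ) : Prop :=
  n.Prime ∧ ∃ k, 1 ≤ k ∧ k < n ∧
    ¬ ((∃ j, j < n ∧ Even (ArithmeticFunction.cardFactors (j * n + k))) ∧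
       (∃ j, j < n ∧ Odd (ArithmeticFunction.cardFactors (j * n + k))))

/-- For every `ε > 0` there is a constant `C` such that

* any two exceptional primes `n < n'` satisfy `n' ^ (1 - ε) ≤ C (n' - n)`;
* for every `N` at most `C N ^ ε` primes `n ≤ N` are exceptional. -/
theorem result (ε : ℝ) (hε : 0 < ε) :
    ∃ C : ℝ,
      (∀ n n' : ℕ, Exceptional n → Exceptional n' → n < n' →
        (n' : ℝ) ^ (1 - ε) ≤ C * ((n' : ℝ) - n)) ∧
      (∀ N : ℕ, (({n : ℕ | n ≤ N ∧ Exceptional n}.ncard : ℕ) : ℝ) ≤ C * (N : ℝ) ^ ε) := by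
  obtain ⟨C1, h1, h2⟩ := Pool.Agent.Helper87.PA.repulsion ε hε
  obtain ⟨C2, h3, h4⟩ := Pool.Agent.Helper87.PA.counting ε hε
  refine ⟨max C1 C2, ?_, ?_⟩
  · intro n n' hn hn' hlt
    refine (h2 n n' hn hn' hlt).trans ?_
    have h5 : (0 : ℝ) ≤ (n' : ℝ) - n := by
      have : (n : ℝ) < n' := by exact_mod_cast hlt
      linarith
    exact mul_le_mul_of_nonneg_right (le_max_left _ _) h5
  · intro N
    refine (h4 N).trans ?_
    exact mul_le_mul_of_nonneg_right (le_max_right _ _) (by positivity)

end Pool.Agent.Results.MP_418075_nt.ParityAlmostAllPrimes
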