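import Mathlib
import Pool.Agent.Helper26.PG.ColsM
import Pool.Agent.Helper68.CO3.MergeG
import Pool.Agent.Helper68.CO2.Same

/-!
MP_418075_nt, Q1 (parity form, all moduli, most columns).  For `0 ≤ δ`, `2 δ < ε`, every `n > 1`
and all but `C n ^ ε` of the `k` prime to `n`, the first `n ^ (1 - δ)` members of the column `C_{n,k}`
contain at least `n ^ (1 - ε)` integers with an even and as many with an odd number of prime factors
(for `δ = 0` the whole column).  The columns that lack one parity altogether lie in one coset of the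
units of order dividing `D n`, `D n = O(n ^ ε)`, with explicit bounds for prime powers `n`.
-/

set_option autoImplicit false

namespace Pool.Agent.Results.MP_418075_nt.ParityMostColumns

/-- The number of `j < N` for which `j n + k` has an even number of prime factors, counted with
multiplicity. -/
noncomputable def evens (n k : ℕ) (N : ℝ) : ℕ :=
  {j : ℕ | (j : ℝ) < N ∧ Even (ArithmeticFunction.cardFactors (j * n + k))}.ncard

/-- The number of `j < N` for which `j n + k` has an odd number of prime factors, counted with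
multiplicity. -/
noncomputable def odds (n k : ℕ) (N : ℝ) : ℕ :=
  {j : ℕ | (j : ℝ) < N ∧ Odd (ArithmeticFunction.cardFactors (j * n + k))}.ncard

/-- The numbers `k` of the columns, `k` prime to `n`, for which fewer than `T` of the `j n + k`,
`j < N`, have an even number of prime factors, or fewer than `T` have an odd number. -/
def Exceptional (n : ℕ) (N T : ℝ) : Set ℕ :=
  {k : ℕ | 1 ≤ k ∧ k ≤ n ∧ Nat.Coprime k n ∧ ¬ (T ≤ evens n k N ∧ T ≤ odds n k N)}

theorem one_le_evens (n k : ℕ) :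
    (1 : ℝ) ≤ evens n k n ↔ ∃ j < n, Even (ArithmeticFunction.cardFactors (j * n + k)) := by
  have hf : {j : ℕ | (j : ℝ) < (n : ℝ) ∧
      Even (ArithmeticFunction.cardFactors (j * n + k))}.Finite :=
    (Set.finite_Iio n).subset (fun j hj => by exact_mod_cast hj.1)
  have h1 : (1 : ℝ) ≤ evens n k n ↔ 0 < evens n k n := by
    rw [← Nat.cast_one, Nat.cast_le]
    exact Nat.one_le_iff_ne_zero.trans Nat.pos_iff_ne_zero.symm
  rw [h1, evens, Set.ncard_pos hf]
  constructor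
  · rintro ⟨j, h2, h3⟩
    exact ⟨j, by exact_mod_cast h2, h3⟩
  · rintro ⟨j, h2, h3⟩
    exact ⟨j, by exact_mod_cast h2, h3⟩

theorem one_le_odds (n k : ℕ) :
    (1 : ℝ) ≤ odds n k n ↔ ∃ j < n, Odd (ArithmeticFunction.cardFactors (j * n + k)) := by
  have hf : {j : ℕ | (j : ℝ) < (n : ℝ) ∧
      Odd (ArithmeticFunction.cardFactors (j * n + k))}.Finite :=
    (Set.finite_Iio n).subset (fun j hj => by exact_mod_cast hj.1)
  have h1 : (1 : ℝ) ≤ odds n k n ↔ 0 < odds n k n := by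
    rw [← Nat.cast_one, Nat.cast_le]
    exact Nat.one_le_iff_ne_zero.trans Nat.pos_iff_ne_zero.symm
  rw [h1, odds, Set.ncard_pos hf]
  constructor
  · rintro ⟨j, h2, h3⟩
    exact ⟨j, by exact_mod_cast h2, h3⟩
  · rintro ⟨j, h2, h3⟩
    exact ⟨j, by exact_mod_cast h2, h3⟩

theorem lt_of_mem {n k : ℕ} (hn : 1 < n) (h : k ≤ n) (hc : Nat.Coprime k n) : k < n := by
  rcases Nat.lt_or_ge k n with h1 | h1
  · exact h1
  · have h2 : k = n := le_antisymm h h1
    rw [h2, Nat.coprime_self] at hc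
    omega

/-- The exceptional columns. -/
theorem result : ∃ D : ℕ → ℕ,
    (∀ δ ε : ℝ, 0 ≤ δ → 2 * δ < ε → ∃ C : ℝ, ∀ n : ℕ, 1 < n →
      ((Exceptional n ((n : ℝ) ^ (1 - δ)) ((n : ℝ) ^ (1 - ε))).ncard : ℝ) ≤ C * (n : ℝ) ^ ε ∧
      (D n : ℝ) ≤ C * (n : ℝ) ^ ε) ∧
    ∀ n : ℕ, 1 < n →
      (Exceptional n n 1).ncard ≤ D n ∧
      (∀ k₁ ∈ Exceptional n n 1, ∀ k₂ ∈ Exceptional n n 1, k₁ ^ D n ≡ k₂ ^ D n [MOD n]) ∧
      ∀ p e : ℕ, p.Prime → n = p ^ (e + 1) →
        D n ∣ 4 * (p - 1) ∧ (p ≠ 2 → Odd (D n)) ∧ (D n : ℝ) ≤ 3 * Real.sqrt (n : ℝ) ∧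
        (e ≠ 1 → D n ^ 3 ≤ 10 ^ 13 * n) ∧
        (p ≠ 2 → (∀ k ∈ Exceptional n n 1, (1 : ℝ) ≤ odds n k n) ∨
          (∀ k ∈ Exceptional n n 1, (1 : ℝ) ≤ evens n k n)) := by
  obtain ⟨D, hε, hD⟩ := Pool.Agent.Helper68.CO3.fail_n_eps
  refine ⟨D, fun δ ε hδ hδε => ?_, fun n hn => ?_⟩
  · obtain ⟨C₁, hC₁⟩ := Pool.Agent.Helper26.PG.few_windowM δ ε hδ hδε
    obtain ⟨C₂, hC₂⟩ := hε ε (by linarith)
    refine ⟨max C₁ C₂, fun n hn => ?_⟩
    have hpos : (0 : ℝ) ≤ (n : ℝ) ^ ε := by positivity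
    refine ⟨?_, (hC₂ n hn).trans (mul_le_mul_of_nonneg_right (le_max_right _ _) hpos)⟩
    refine (le_trans (le_of_eq ?_) (hC₁ n hn)).trans
      (mul_le_mul_of_nonneg_right (le_max_left _ _) hpos)
    congr 2
    ext k
    constructor
    · rintro ⟨h1, h2, h3, h4⟩
      exact ⟨h1, lt_of_mem hn h2 h3, h3, h4⟩
    · rintro ⟨h1, h2, h3, h4⟩
      exact ⟨h1, h2.le, h3, h4⟩
  · obtain ⟨h1, h2, h3⟩ := hD n hn
    have hmem : ∀ k ∈ Exceptional n n 1, 1 ≤ k ∧ k < n ∧ Nat.Coprime k n ∧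
        ¬ Pool.Agent.Helper68.CO2.Mixed n k n := by
      rintro k ⟨a1, a2, a3, a4⟩
      rw [one_le_evens, one_le_odds] at a4
      exact ⟨a1, lt_of_mem hn a2 a3, a3, a4⟩
    refine ⟨?_, ?_, ?_⟩
    · refine (Set.ncard_le_ncard hmem ?_).trans h2
      exact (Set.finite_Iio n).subset (fun k hk => hk.2.1)
    · intro k₁ hk₁ k₂ hk₂
      exact h1 k₁ k₂ (hmem k₁ hk₁) (hmem k₂ hk₂)
    · intro p e hp hn'
      obtain ⟨g1, g2, g3, g4⟩ := h3 p e hp hn'
      refine ⟨g1, g2, g3, g4, fun hp2 => ?_⟩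
      subst hn'
      have hcop : ∀ k, Nat.Coprime k (p ^ (e + 1)) → ¬ p ∣ k := by
        intro k h
        have h4 : Nat.Coprime k p := Nat.Coprime.coprime_dvd_right (dvd_pow_self p (by omega)) h
        exact (Nat.Prime.coprime_iff_not_dvd hp).1 h4.symm
      by_contra hcon
      rw [not_or] at hcon
      obtain ⟨c1, c2⟩ := hcon
      push Not at c1 c2
      obtain ⟨k₁, a, a'⟩ := c1
      obtain ⟨k₂, b, b'⟩ := c2
      obtain ⟨a1, a2, a3, _⟩ := hmem k₁ a
      obtain ⟨b1, b2, b3, _⟩ := hmem k₂ b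
      rcases Pool.Agent.Helper68.CO2.same_parity (e := e) hp hp2 a1 a2 (hcop _ a3) b1 b2
        (hcop _ b3) with h | h
      · exact absurd ((one_le_odds _ _).2 h) (not_le.2 a')
      · exact absurd ((one_le_evens _ _).2 h) (not_le.2 b')

end Pool.Agent.Results.MP_418075_nt.ParityMostColumns
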